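import Mathlib

/-!
# Project SB: few small sets
-/

set_option autoImplicit false

namespace Pool.Agent.J4H22.SB

open Finset

theorem bin_le (m : ℕ) : ((univ : Finset (Finset (Fin m))).filter (fun A => 64 * A.card ≤ m)).card ^ 8
    ≤ 2 ^ m := by
  set c := ((univ : Finset (Finset (Fin m))).filter (fun A => 64 * A.card ≤ m)).card with hc
  have h0 : ∑ s : Finset (Fin m), 64 ^ (m - s.card) = 65 ^ m := by
    have := Fintype.sum_pow_mul_eq_add_pow (Fin m) (1 : ℕ) 64
    simpa using this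
  have h1 : c * 64 ^ m ≤ 64 ^ (m / 64) * 65 ^ m := by
    rw [hc, ← smul_eq_mul, ← Finset.sum_const, ← h0, Finset.mul_sum]
    calc ∑ _x ∈ (univ : Finset (Finset (Fin m))).filter (fun A => 64 * A.card ≤ m), 64 ^ m
        ≤ ∑ x ∈ (univ : Finset (Finset (Fin m))).filter (fun A => 64 * A.card ≤ m),
          64 ^ (m / 64) * 64 ^ (m - x.card) := by
          apply Finset.sum_le_sum
          intro x hx
          rw [Finset.mem_filter] at hx
          rw [← pow_add]
          exact Nat.pow_le_pow_right (by norm_num) (by omega)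
      _ ≤ ∑ x : Finset (Fin m), 64 ^ (m / 64) * 64 ^ (m - x.card) :=
          Finset.sum_le_sum_of_subset (Finset.filter_subset _ _)
  have h2 : c ^ 32 * (64 ^ 32) ^ m ≤ 16 ^ m * (64 ^ 32) ^ m := by
    calc c ^ 32 * (64 ^ 32) ^ m = (c * 64 ^ m) ^ 32 := by
          rw [mul_pow, ← pow_mul, ← pow_mul, mul_comm 32 m]
      _ ≤ (64 ^ (m / 64) * 65 ^ m) ^ 32 := Nat.pow_le_pow_left h1 32
      _ = 2 ^ (192 * (m / 64)) * (65 ^ 32) ^ m := by
          rw [mul_pow, ← pow_mul, ← pow_mul, ← pow_mul, mul_comm m 32,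
            show (64 : ℕ) = 2 ^ 6 by norm_num, ← pow_mul]
          congr 2
          ring_nf
      _ ≤ 2 ^ (3 * m) * (2 * 64 ^ 32) ^ m := by
          apply Nat.mul_le_mul
          · exact Nat.pow_le_pow_right (by norm_num) (by omega)
          · exact Nat.pow_le_pow_left (by norm_num) m
      _ = 16 ^ m * (64 ^ 32) ^ m := by
          rw [mul_pow, ← mul_assoc, pow_mul, ← mul_pow]; norm_num
  have h3 : c ^ 32 ≤ 16 ^ m := Nat.le_of_mul_le_mul_right h2 (by positivity)
  have h4 : (c ^ 8) ^ 4 ≤ (2 ^ m) ^ 4 := by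
    calc (c ^ 8) ^ 4 = c ^ 32 := by rw [← pow_mul]
      _ ≤ 16 ^ m := h3
      _ = (2 ^ m) ^ 4 := by rw [← pow_mul, mul_comm m 4, pow_mul]; norm_num
  exact (Nat.pow_le_pow_iff_left (by norm_num)).1 h4

end Pool.Agent.J4H22.SB
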