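import Pool.Agent.J4H23.SB.Stm
import Pool.Agent.J4H22.SB.Bin0

/-!
# Project SB: (BIN)
-/

set_option autoImplicit false

namespace Pool.Agent.J4H22.SB

open Pool.Agent.J4H23.SB

theorem t_BIN : S_BIN := bin_le

end Pool.Agent.J4H22.SB
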