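import Pool.Agent.J4H23.SB.Stm

/-!
# Project SB: (GRF), the counts of `gr m X`
-/

set_option autoImplicit false

namespace Pool.Agent.J4H22.SB

open Finset Pool.Agent.NPC Pool.Agent.H49R2.PC Pool.Agent.J4H63.DB Pool.Agent.J4H23.SB

/-- the values of two sets -/
def em {m : ℕ} (p : Finset (Fin m) × Finset (Fin m)) : Finset ℕ × Finset ℕ :=
  (p.1.map Fin.valEmbedding, p.2.map Fin.valEmbedding)

theorem em_inj {m : ℕ} : Function.Injective (em (m := m)) := by
  rintro ⟨a, b⟩ ⟨c, d⟩ h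
  simp only [em, Prod.mk.injEq, Finset.map_inj] at h
  exact Prod.ext h.1 h.2

theorem map_sub {m : ℕ} (A : Finset (Fin m)) : A.map Fin.valEmbedding ⊆ (List.range m).toFinset := by
  intro x hx
  obtain ⟨i, -, rfl⟩ := Finset.mem_map.1 hx
  rw [List.mem_toFinset, List.mem_range]
  exact i.2

theorem of_sub {m : ℕ} {A : Finset ℕ} (h : A ⊆ (List.range m).toFinset) :
    ∃ A' : Finset (Fin m), A'.map Fin.valEmbedding = A := by
  refine ⟨univ.filter (fun i => i.val ∈ A), ?_⟩
  ext x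
  simp only [Finset.mem_map, Finset.mem_filter, Finset.mem_univ, true_and, Fin.valEmbedding_apply]
  constructor
  · rintro ⟨i, hi, rfl⟩; exact hi
  · intro hx
    have := h hx
    rw [List.mem_toFinset, List.mem_range] at this
    exact ⟨⟨x, this⟩, hx, rfl⟩

theorem indep_eq {m : ℕ} (E : List (ℕ × ℕ)) (P : Fin m → Fin m → Prop) [∀ i j, Decidable (P i j)]
    (h : ∀ i j : Fin m, (i.val, j.val) ∈ E ↔ P i j) :
    indep E (List.range m).toFinset (List.range m).toFinset =
      ((univ : Finset (Finset (Fin m) × Finset (Fin m))).filter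
        (fun p => ∀ u ∈ p.1, ∀ v ∈ p.2, ¬ P u v)).image em := by
  ext ⟨A, B⟩
  rw [mem_indep, Finset.mem_image]
  constructor
  · rintro ⟨h1, h2, h3⟩
    obtain ⟨A', rfl⟩ := of_sub h1
    obtain ⟨B', rfl⟩ := of_sub h2
    refine ⟨(A', B'), ?_, rfl⟩
    rw [Finset.mem_filter]
    refine ⟨Finset.mem_univ _, fun u hu v hv huv => ?_⟩
    exact h3 u.val (Finset.mem_map.2 ⟨u, hu, rfl⟩) v.val (Finset.mem_map.2 ⟨v, hv, rfl⟩) ((h u v).2 huv)
  · rintro ⟨⟨A', B'⟩, h1, h2⟩
    rw [Finset.mem_filter] at h1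
    simp only [em, Prod.mk.injEq] at h2
    obtain ⟨rfl, rfl⟩ := h2
    refine ⟨map_sub _, map_sub _, ?_⟩
    intro u hu v hv huv
    obtain ⟨i, hi, rfl⟩ := Finset.mem_map.1 hu
    obtain ⟨j, hj, rfl⟩ := Finset.mem_map.1 hv
    exact h1.2 i hi j hj ((h i j).1 huv)

theorem mem_gr (m : ℕ) (X : Finset (Fin m × Fin m)) (i j : Fin m) :
    (i.val, j.val) ∈ (gr m X).2.2 ↔ (i, j) ∈ X := by
  unfold gr
  simp only [List.mem_map, List.mem_filter, decide_eq_true_eq, Prod.mk.injEq]
  constructor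
  · rintro ⟨⟨a, b⟩, ⟨-, h⟩, h1, h2⟩
    have e1 : a = i := Fin.ext h1
    have e2 : b = j := Fin.ext h2
    rw [← e1, ← e2]; exact h
  · intro h
    refine ⟨(i, j), ⟨?_, h⟩, rfl, rfl⟩
    simp

theorem cardf {m : ℕ} (E : List (ℕ × ℕ)) (P : Fin m → Fin m → Prop) [∀ i j, Decidable (P i j)]
    (h : ∀ i j : Fin m, (i.val, j.val) ∈ E ↔ P i j) (t : ℕ) :
    ((indep E (List.range m).toFinset (List.range m).toFinset).filter (fun p => p.1.card ≤ t)).card =
      (((univ : Finset (Finset (Fin m) × Finset (Fin m))).filter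
        (fun p => ∀ u ∈ p.1, ∀ v ∈ p.2, ¬ P u v)).filter (fun p => p.1.card ≤ t)).card := by
  rw [indep_eq E P h, Finset.filter_image, Finset.card_image_of_injective _ em_inj]
  simp only [em, Finset.card_map]

theorem t_GRF : S_GRF := by
  classical
  intro m X t
  refine ⟨?_, ?_, ?_⟩
  · show (indep (gr m X).2.2 (List.range m).toFinset (List.range m).toFinset).card = _
    rw [indep_eq _ (fun i j => (i, j) ∈ X) (mem_gr m X), Finset.card_image_of_injective _ em_inj]
    rfl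
  · rw [cardf _ (fun i j => (i, j) ∈ X) (mem_gr m X)]
    rfl
  · rw [cardf (sw (gr m X).2.2) (fun i j => (j, i) ∈ X)
      (fun i j => by rw [mem_sw]; exact mem_gr m X j i)]
    unfold sR ip
    refine Finset.card_bij' (fun p _ => p.swap) (fun p _ => p.swap) ?_ ?_ ?_ ?_
    · intro p hp
      simp only [Finset.mem_filter, Finset.mem_univ, true_and, Prod.fst_swap, Prod.snd_swap] at hp ⊢
      exact ⟨fun u hu v hv => hp.1 v hv u hu, hp.2⟩
    · intro p hp
      simp only [Finset.mem_filter, Finset.mem_univ, true_and, Prod.fst_swap, Prod.snd_swap] at hp ⊢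
      exact ⟨fun u hu v hv => hp.1 v hv u hu, hp.2⟩
    · intro p _; exact Prod.swap_swap p
    · intro p _; exact Prod.swap_swap p

end Pool.Agent.J4H22.SB
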